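import Pool.Agent.Helper39.Uct.Goals2

/-!
# Packet GL: characteristic finite or torsion-free abelian subgroups
-/

namespace Pool.Agent.Helper31.Uct

open Pool.Agent.Helper39.Uct Subgroup

/-- A finitely generated torsion group with finite commutator subgroup is finite. -/
theorem finite_of_comm {G : Type*} [Group G] (hfg : Group.FG G) (ht : ∀ x : G, IsOfFinOrder x)
    (hc : Finite (commutator G)) : Finite G := by
  have h1 : IsMulTorsion (Abelianization G) := by
    intro x
    obtain ⟨y, rfl⟩ : ∃ y : G, Abelianization.of y = x := by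
      induction x using QuotientGroup.induction_on with
      | H z => exact ⟨z, rfl⟩
    exact MonoidHom.isOfFinOrder _ (ht y)
  have : Group.FG (Abelianization G) := by
    unfold Abelianization
    infer_instance
  have h2 : Finite (Abelianization G) := CommGroup.finite_of_fg_isMulTorsion _ h1
  have h3 : Finite (G ⧸ commutator G) := h2
  exact Finite.of_equiv _ (Subgroup.groupEquivQuotientProdSubgroup (s := commutator G)).symm

/-- The derived series of a subgroup, as subgroups of the ambient group. -/
def der {G : Type*} [Group G] (H : Subgroup G) : ℕ → Subgroup G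
  | 0 => H
  | n + 1 => ⁅der H n, der H n⁆

theorem der_eq {G : Type*} [Group G] (H : Subgroup G) (n : ℕ) :
    der H n = (derivedSeries H n).map H.subtype := by
  induction n with
  | zero => simp [der, ← MonoidHom.range_eq_map]
  | succ n ih => rw [der, derivedSeries_succ, Subgroup.map_commutator, ih]

theorem der_char {G : Type*} [Group G] (H : Subgroup G) [H.Characteristic] (n : ℕ) :
    (der H n).Characteristic := by
  induction n with
  | zero => assumption
  | succ n ih =>
    have := ih
    exact Subgroup.commutator_characteristic _ _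

theorem der_le {G : Type*} [Group G] (H : Subgroup G) (n : ℕ) : der H n ≤ H := by
  rw [der_eq]
  exact Subgroup.map_subtype_le _

theorem exists_der_eq_bot {G : Type*} [Group G] (H : Subgroup G) (hs : Group.IsSolvable H) :
    ∃ n, der H n = ⊥ := by
  obtain ⟨n, hn⟩ := hs.solvable
  exact ⟨n, by rw [der_eq, hn]; simp⟩

/-- A solvable torsion group all of whose subgroups are finitely generated is finite. -/
theorem finite_of_solvable_torsion {G : Type*} [Group G] (hfg : ∀ H : Subgroup G, H.FG)
    (H : Subgroup G) (hs : Group.IsSolvable H) (ht : ∀ x ∈ H, IsOfFinOrder x) : Finite H := by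
  obtain ⟨n, hn⟩ := exists_der_eq_bot H hs
  have key : ∀ k, k ≤ n → Finite (der H (n - k)) := by
    intro k
    induction k with
    | zero =>
      intro _
      rw [Nat.sub_zero, hn]
      infer_instance
    | succ k ih =>
      intro hk
      have h1 := ih (by omega)
      have e : n - k = (n - (k + 1)) + 1 := by omega
      rw [e] at h1
      set A := der H (n - (k + 1)) with hA
      have h2 : Finite (⁅A, A⁆ : Subgroup G) := h1
      have h3 : Finite (commutator A) := by
        rw [← Subgroup.map_subtype_commutator] at h2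
        exact Finite.of_equiv _
          ((commutator A).equivMapOfInjective A.subtype A.subtype_injective).symm.toEquiv
      refine finite_of_comm ((Group.fg_iff_subgroup_fg A).2 (hfg A)) ?_ h3
      intro x
      have h4 : IsOfFinOrder (x : G) := ht x (der_le H _ x.2)
      exact (Submonoid.isOfFinOrder_coe (H := A.toSubmonoid) (x := x)).1 h4
  have := key n le_rfl
  rwa [Nat.sub_self] at this

/-- Subgroups of a group all of whose subgroups are finitely generated. -/
theorem fg_sub {Q : Type*} [Group Q] (hfg : ∀ H : Subgroup Q, H.FG) (D : Subgroup Q)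
    (H : Subgroup D) : H.FG := by
  have h1 : Group.FG (H.map D.subtype) := (Group.fg_iff_subgroup_fg _).2 (hfg _)
  have e := (H.equivMapOfInjective D.subtype D.subtype_injective).symm
  rw [← Group.fg_iff_subgroup_fg]
  exact Group.fg_of_surjective (f := e.toMonoidHom) e.surjective

/-- The type-level statement. -/
theorem exists_char {G : Type*} [Group G] (hfg : ∀ H : Subgroup G, H.FG)
    (S : Subgroup G) (hS : S.FiniteIndex) (hsol : Group.IsSolvable S) (hne : (⊤ : Subgroup G) ≠ ⊥) :
    ∃ K : Subgroup G, K.Characteristic ∧ K ≠ ⊥ ∧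
      (Finite K ∨ ((∀ x ∈ K, ∀ y ∈ K, x * y = y * x) ∧
      ∀ x ∈ K, ∀ n : ℕ, n ≠ 0 → x ^ n = 1 → x = 1)) := by
  classical
  by_cases hfin : Finite G
  · exact ⟨⊤, inferInstance, hne, Or.inl inferInstance⟩
  let N := S.normalCore
  have hNi : N.FiniteIndex := inferInstance
  have hNsol : Group.IsSolvable N := by
    have hle : N ≤ S := S.normalCore_le
    exact Group.isSolvable_of_isSolvable_injective (f := Subgroup.inclusion hle)
      (Subgroup.inclusion_injective hle)
  let j := N.index
  have hj : j ≠ 0 := hNi.index_ne_zero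
  let K₀ : Subgroup G := Subgroup.closure (Set.range fun x : G => x ^ j)
  have hK₀N : K₀ ≤ N := by
    rw [Subgroup.closure_le]
    rintro _ ⟨x, rfl⟩
    exact N.pow_index_mem x
  have hK₀c : K₀.Characteristic := by
    rw [Subgroup.characteristic_iff_map_le]
    intro φ
    rw [Subgroup.map_le_iff_le_comap, Subgroup.closure_le]
    rintro _ ⟨x, rfl⟩
    have : (φ.toMonoidHom (x ^ j)) = (φ x) ^ j := by simp
    show φ.toMonoidHom (x ^ j) ∈ K₀
    rw [this]
    exact Subgroup.subset_closure ⟨φ x, rfl⟩
  have hK₀sol : Group.IsSolvable K₀ :=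
    Group.isSolvable_of_isSolvable_injective (f := Subgroup.inclusion hK₀N)
      (Subgroup.inclusion_injective hK₀N)
  have hK₀ne : K₀ ≠ ⊥ := by
    intro h0
    apply hfin
    have htor : ∀ x : G, IsOfFinOrder x := by
      intro x
      rw [isOfFinOrder_iff_pow_eq_one]
      refine ⟨j, Nat.pos_of_ne_zero hj, ?_⟩
      have : x ^ j ∈ K₀ := Subgroup.subset_closure ⟨x, rfl⟩
      rw [h0] at this
      simpa using this
    have hNf : Finite N := finite_of_solvable_torsion hfg N hNsol (fun x _ => htor x)
    have : Finite (G ⧸ N) := N.finite_quotient_of_finiteIndex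
    exact Finite.of_equiv _ (Subgroup.groupEquivQuotientProdSubgroup (s := N)).symm
  -- the last nontrivial term of the derived series
  have hex := exists_der_eq_bot K₀ hK₀sol
  obtain ⟨A, hAc, hAne, hAcomm⟩ : ∃ A : Subgroup G, A.Characteristic ∧ A ≠ ⊥ ∧
      ∀ x ∈ A, ∀ y ∈ A, x * y = y * x := by
    let n := Nat.find hex
    have hn : der K₀ n = ⊥ := Nat.find_spec hex
    have hn0 : n ≠ 0 := by
      intro h
      rw [h] at hn
      exact hK₀ne hn
    refine ⟨der K₀ (n - 1), der_char _ _, ?_, ?_⟩
    · exact Nat.find_min hex (m := n - 1) (by show n - 1 < n; omega)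
    · intro x hx y hy
      have h1 : x * y * x⁻¹ * y⁻¹ ∈ ⁅der K₀ (n - 1), der K₀ (n - 1)⁆ :=
        Subgroup.commutator_mem_commutator hx hy
      have h2 : ⁅der K₀ (n - 1), der K₀ (n - 1)⁆ = der K₀ n := by
        conv_rhs => rw [show n = (n - 1) + 1 by omega]
        rfl
      rw [h2, hn, Subgroup.mem_bot] at h1
      have h3 : x * y * x⁻¹ * y⁻¹ * y * x = 1 * y * x := by rw [h1]
      simpa using h3
  let T : Subgroup G :=
    { carrier := {x | x ∈ A ∧ IsOfFinOrder x}
      mul_mem' := by
        rintro a b ⟨ha, ha'⟩ ⟨hb, hb'⟩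
        exact ⟨A.mul_mem ha hb, (show Commute a b from hAcomm a ha b hb).isOfFinOrder_mul ha' hb'⟩
      one_mem' := ⟨A.one_mem, IsOfFinOrder.one⟩
      inv_mem' := by
        rintro a ⟨ha, ha'⟩
        exact ⟨A.inv_mem ha, ha'.inv⟩ }
  have hTc : T.Characteristic := by
    rw [Subgroup.characteristic_iff_map_le]
    intro φ
    rw [Subgroup.map_le_iff_le_comap]
    rintro x ⟨hx, hx'⟩
    refine ⟨?_, MonoidHom.isOfFinOrder φ.toMonoidHom hx'⟩
    have h := Subgroup.characteristic_iff_map_le.1 hAc φ
    exact h ⟨x, hx, rfl⟩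
  by_cases hT : T = ⊥
  · refine ⟨A, hAc, hAne, Or.inr ⟨hAcomm, ?_⟩⟩
    intro x hx n hn hxn
    have : x ∈ T := ⟨hx, isOfFinOrder_iff_pow_eq_one.2 ⟨n, Nat.pos_of_ne_zero hn, hxn⟩⟩
    rw [hT] at this
    simpa using this
  · refine ⟨T, hTc, hT, Or.inl ?_⟩
    refine finite_of_solvable_torsion hfg T ?_ (fun x hx => hx.2)
    refine Group.isSolvable_of_comm ?_
    rintro ⟨a, ha⟩ ⟨b, hb⟩
    exact Subtype.ext (hAcomm a ha.1 b hb.1)

/-- Packet GL. -/
theorem gl : S_GL := by
  intro Q _ hQ D hD
  obtain ⟨hfg, S, hS, hsol⟩ := hQ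
  have hsol' : Group.IsSolvable (S.subgroupOf D) := by
    refine Group.isSolvable_of_isSolvable_injective (G' := S) (f :=
      ({ toFun := fun x => ⟨(x : D), x.2⟩
         map_one' := rfl
         map_mul' := fun _ _ => rfl } : (S.subgroupOf D) →* S)) ?_
    intro x y h
    have h' : ((x : D) : Q) = ((y : D) : Q) := congrArg (fun z : S => (z : Q)) h
    exact Subtype.ext (Subtype.ext h')
  have hne : (⊤ : Subgroup D) ≠ ⊥ := by
    intro h
    apply hD
    rw [Subgroup.eq_bot_iff_forall]
    intro x hx
    have : (⟨x, hx⟩ : D) ∈ (⊤ : Subgroup D) := trivial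
    rw [h, Subgroup.mem_bot] at this
    exact congrArg Subtype.val this
  obtain ⟨K, hKc, hKne, hK⟩ := exists_char (fg_sub hfg D) (S.subgroupOf D) inferInstance hsol' hne
  refine ⟨K.map D.subtype, Subgroup.map_subtype_le _, ?_, ?_, ?_⟩
  · intro h
    exact hKne ((Subgroup.map_eq_bot_iff_of_injective _ D.subtype_injective).1 h)
  · intro q hq x
    -- conjugation by q as an automorphism of D
    let φ : D ≃* D :=
      { toFun := fun x => ⟨q * x * q⁻¹, (hq x).1 x.2⟩
        invFun := fun x => ⟨q⁻¹ * x * q, by
          have := (hq (q⁻¹ * x * q)).2 (by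
            have : q * (q⁻¹ * x * q) * q⁻¹ = (x : Q) := by group
            rw [this]; exact x.2)
          exact this⟩
        left_inv := fun x => Subtype.ext (by simp [mul_assoc])
        right_inv := fun x => Subtype.ext (by simp [mul_assoc])
        map_mul' := fun x y => Subtype.ext (by simp [mul_assoc]) }
    have hφ : ∀ y : D, y ∈ K ↔ φ y ∈ K := by
      intro y
      have h1 := hKc.fixed φ
      constructor
      · intro hy
        rw [← h1] at hy
        exact hy
      · intro hy
        rw [← h1]
        exact hy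
    constructor
    · rintro ⟨y, hy, rfl⟩
      exact ⟨φ y, (hφ y).1 hy, rfl⟩
    · rintro ⟨y, hy, hyx⟩
      have hyx' : (y : Q) = q * x * q⁻¹ := hyx
      have hxD : x ∈ D := by
        rw [hq x, ← hyx']
        exact y.2
      refine ⟨⟨x, hxD⟩, ?_, rfl⟩
      have : φ ⟨x, hxD⟩ = y := Subtype.ext hyx'.symm
      exact (hφ _).2 (this ▸ hy)
  · rcases hK with hK | ⟨h1, h2⟩
    · left
      exact Finite.of_equiv _ (K.equivMapOfInjective D.subtype D.subtype_injective).toEquiv
    · right
      constructor
      · rintro _ ⟨x, hx, rfl⟩ _ ⟨y, hy, rfl⟩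
        exact congrArg Subtype.val (h1 x hx y hy)
      · rintro _ ⟨x, hx, rfl⟩ n hn hxn
        have : x ^ n = 1 := by
          apply Subtype.ext
          simpa using hxn
        have := h2 x hx n hn this
        rw [this]
        rfl

end Pool.Agent.Helper31.Uct
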